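import Mathlib

/-!
# General position sets, mobile general position sets, and hypercubes (definitions)
-/

set_option autoImplicit false

namespace Pool.Agent.Lib.MP_15cbb0_co

/-- `S` is a general position set of `G`: no three (distinct) vertices of `S` lie on a common
shortest path of `G`, where a shortest path is a walk whose length is the distance of its ends. -/
def IsGP {V : Type} (G : SimpleGraph V) (S : Finset V) : Prop :=
  ∀ u ∈ S, ∀ v ∈ S, ∀ w ∈ S, u ≠ v → v ≠ w → u ≠ w →
    ¬ ∃ (a b : V) (p : G.Walk a b), p.length = G.dist a b ∧
      u ∈ p.support ∧ v ∈ p.support ∧ w ∈ p.support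

/-- A legal move from the configuration `S` to the configuration `T`: the robot at `u ∈ S` moves to
a neighbour `v` of `u` with `v ∉ S`, and the new configuration `(S \ {u}) ∪ {v}` is again a general
position set. -/
def LegalMove {V : Type} [DecidableEq V] (G : SimpleGraph V) (S T : Finset V) : Prop :=
  ∃ u ∈ S, ∃ v, v ∉ S ∧ G.Adj u v ∧ T = insert v (S.erase u) ∧ IsGP G T

/-- `S` is a mobile general position set of `G`: it is a general position set, and there is a finite
sequence of configurations `S, l₁, l₂, …` in which every configuration arises from the previous one
by a legal move, such that every vertex of `G` is occupied in one of these configurations. -/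
def IsMobile {V : Type} [DecidableEq V] (G : SimpleGraph V) (S : Finset V) : Prop :=
  IsGP G S ∧ ∃ l : List (Finset V), (S :: l).IsChain (LegalMove G) ∧
    ∀ x : V, ∃ T ∈ S :: l, x ∈ T

/-- The general position number: the largest size of a general position set. -/
noncomputable def gp {V : Type} (G : SimpleGraph V) : ℕ :=
  sSup {k : ℕ | ∃ S : Finset V, IsGP G S ∧ S.card = k}

/-- The mobile general position number: the largest size of a mobile general position set. -/
noncomputable def mob {V : Type} [DecidableEq V] (G : SimpleGraph V) : ℕ :=
  sSup {k : ℕ | ∃ S : Finset V, IsMobile G S ∧ S.card = k}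

/-- The hypercube `Q_n`: the vertices are the `n`-tuples of bits, two of them are adjacent when they
differ in exactly one coordinate. -/
def Q (n : ℕ) : SimpleGraph (Fin n → Bool) where
  Adj x y := ∃! i, x i ≠ y i
  symm := ⟨fun _ _ h => by simpa [ne_comm] using h⟩
  loopless := ⟨fun _ h => by simp at h⟩

end Pool.Agent.Lib.MP_15cbb0_co
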