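import Pool.Agent.Lib.MP_15cbb0_co.Defs

/-!
# Distance and betweenness in hypercubes
-/

set_option autoImplicit false

namespace Pool.Agent.Lib.MP_15cbb0_co

open SimpleGraph

lemma Q_adj_update {n : ℕ} (x : Fin n → Bool) (i : Fin n) (b : Bool) (h : x i ≠ b) :
    (Q n).Adj x (Function.update x i b) := by
  refine ⟨i, by simpa using h, ?_⟩
  intro j hj
  by_contra hne
  exact hj (by simp [Function.update_of_ne hne])

lemma hammingDist_of_adj {n : ℕ} {x y : Fin n → Bool} (h : (Q n).Adj x y) :
    hammingDist x y = 1 := by
  obtain ⟨i, hi, hu⟩ := h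
  unfold hammingDist
  rw [Finset.card_eq_one]
  refine ⟨i, ?_⟩
  ext j
  simp only [Finset.mem_filter, Finset.mem_univ, true_and, Finset.mem_singleton]
  exact ⟨fun hj => hu j hj, fun hj => hj ▸ hi⟩

lemma hammingDist_le_length {n : ℕ} {x y : Fin n → Bool} (p : (Q n).Walk x y) :
    hammingDist x y ≤ p.length := by
  induction p with
  | nil => simp
  | cons h p ih =>
    rename_i u v w
    calc hammingDist u w ≤ hammingDist u v + hammingDist v w := hammingDist_triangle _ _ _
      _ ≤ 1 + p.length := by rw [hammingDist_of_adj h]; omega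
      _ = _ := by simp [add_comm]

lemma exists_walk {n : ℕ} (k : ℕ) : ∀ (x y : Fin n → Bool), hammingDist x y = k →
    ∃ p : (Q n).Walk x y, p.length = k := by
  induction k with
  | zero =>
    intro x y h
    rw [hammingDist_eq_zero] at h
    subst h
    exact ⟨Walk.nil, rfl⟩
  | succ k ih =>
    intro x y h
    have hne : x ≠ y := by
      rintro rfl; simp at h
    obtain ⟨i, hi⟩ := Function.ne_iff.mp hne
    have hadj := Q_adj_update x i (y i) hi
    have hd : hammingDist (Function.update x i (y i)) y = k := by
      have hs : (Finset.univ.filter fun j => x j ≠ y j) =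
          insert i (Finset.univ.filter fun j => Function.update x i (y i) j ≠ y j) := by
        ext j
        simp only [Finset.mem_filter, Finset.mem_univ, true_and, Finset.mem_insert]
        by_cases hj : j = i
        · subst hj; simp [hi]
        · simp [hj]
      have hnot : i ∉ (Finset.univ.filter fun j => Function.update x i (y i) j ≠ y j) := by simp
      have hc := Finset.card_insert_of_notMem hnot
      rw [← hs] at hc
      unfold hammingDist at h ⊢
      omega
    obtain ⟨p, hp⟩ := ih _ _ hd
    exact ⟨Walk.cons hadj p, by simp [hp]⟩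

lemma dist_eq {n : ℕ} (x y : Fin n → Bool) : (Q n).dist x y = hammingDist x y := by
  obtain ⟨p, hp⟩ := exists_walk _ x y rfl
  apply le_antisymm
  · rw [← hp]; exact SimpleGraph.dist_le p
  · have hr : (Q n).Reachable x y := ⟨p⟩
    obtain ⟨q, hq⟩ := hr.exists_walk_length_eq_dist
    rw [← hq]; exact hammingDist_le_length q

/-- `y` is between `x` and `z`: every coordinate of `y` agrees with `x` or with `z`. -/
def Btw {n : ℕ} (x y z : Fin n → Bool) : Prop := ∀ i, y i = x i ∨ y i = z i

lemma btw_iff {n : ℕ} (x y z : Fin n → Bool) :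
    Btw x y z ↔ hammingDist x y + hammingDist y z = hammingDist x z := by
  have e : ∀ a b : Fin n → Bool, hammingDist a b = ∑ i, if a i ≠ b i then 1 else 0 := by
    intro a b; rw [hammingDist, Finset.card_filter]
  constructor
  · intro h
    rw [e, e, e, ← Finset.sum_add_distrib]
    refine Finset.sum_congr rfl fun i _ => ?_
    have := h i
    generalize x i = a at *
    generalize y i = b at *
    generalize z i = c at *
    revert this; revert a b c; decide
  · intro h i
    by_contra hc
    rw [e, e, e, ← Finset.sum_add_distrib] at h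
    have hlt : (∑ i, if x i ≠ z i then 1 else 0) <
        ∑ i, ((if x i ≠ y i then 1 else 0) + if y i ≠ z i then 1 else 0) := by
      apply Finset.sum_lt_sum
      · intro j _
        generalize x j = a
        generalize y j = b
        generalize z j = c
        revert a b c; decide
      · refine ⟨i, Finset.mem_univ _, ?_⟩
        revert hc
        generalize x i = a
        generalize y i = b
        generalize z i = c
        revert a b c; decide
    omega

/-- Three vertices on a geodesic, in the order of their positions. -/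
lemma btw_of_positions {n : ℕ} {a b : Fin n → Bool} (p : (Q n).Walk a b)
    (hp : p.length = (Q n).dist a b) {i j k : ℕ} (hij : i ≤ j) (hjk : j ≤ k)
    (hk : k ≤ p.length) : Btw (p.getVert i) (p.getVert j) (p.getVert k) := by
  have sub : ∀ {r s : ℕ}, r ≤ s → s ≤ p.length →
      hammingDist (p.getVert r) (p.getVert s) ≤ s - r := by
    intro r s hrs hs
    have h1 : (p.drop r).getVert (s - r) = p.getVert s := by
      rw [Walk.drop_getVert]; congr 1; omega
    have h2 := hammingDist_le_length ((p.drop r).take (s - r))
    have h3 : ((p.drop r).take (s - r)).length ≤ s - r := by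
      rw [Walk.take_length]
      exact Nat.min_le_left _ _
    have h4 := h2.trans h3
    rwa [h1] at h4
  have h0 := sub (Nat.zero_le i) (by omega : i ≤ p.length)
  have h1 := sub hij (by omega)
  have h2 := sub hjk hk
  have h3 := sub hk le_rfl
  rw [Walk.getVert_zero] at h0
  rw [Walk.getVert_length] at h3
  rw [dist_eq] at hp
  have t1 := hammingDist_triangle a (p.getVert i) b
  have t2 := hammingDist_triangle (p.getVert i) (p.getVert k) b
  have t3 := hammingDist_triangle (p.getVert i) (p.getVert j) (p.getVert k)
  rw [btw_iff]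
  omega

lemma isGP_iff {n : ℕ} (S : Finset (Fin n → Bool)) :
    IsGP (Q n) S ↔ ∀ u ∈ S, ∀ v ∈ S, ∀ w ∈ S, u ≠ v → v ≠ w → u ≠ w → ¬ Btw u v w := by
  constructor
  · intro h u hu v hv w hw huv hvw huw hb
    rw [btw_iff] at hb
    obtain ⟨p, hp⟩ := exists_walk _ u v rfl
    obtain ⟨q, hq⟩ := exists_walk _ v w rfl
    refine h u hu v hv w hw huv hvw huw ⟨u, w, p.append q, ?_, ?_, ?_, ?_⟩
    · rw [dist_eq, Walk.length_append, hp, hq, hb]
    · exact Walk.start_mem_support _
    · rw [Walk.mem_support_append_iff]; left; exact Walk.end_mem_support _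
    · exact Walk.end_mem_support _
  · rintro h u hu v hv w hw huv hvw huw ⟨a, b, p, hp, hup, hvp, hwp⟩
    have key : ∀ {x y z : Fin n → Bool}, x ∈ S → y ∈ S → z ∈ S → x ≠ y → y ≠ z → x ≠ z →
        ∀ {i j k : ℕ}, p.getVert i = x → p.getVert j = y → p.getVert k = z → i ≤ j → j ≤ k →
        k ≤ p.length → False := by
      intro x y z hx hy hz hxy hyz hxz i j k hi hj hk hij hjk hkl
      have := btw_of_positions p hp hij hjk hkl
      rw [hi, hj, hk] at this
      exact h x hx y hy z hz hxy hyz hxz this
    obtain ⟨i, hi, hil⟩ := Walk.mem_support_iff_exists_getVert.mp hup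
    obtain ⟨j, hj, hjl⟩ := Walk.mem_support_iff_exists_getVert.mp hvp
    obtain ⟨k, hk, hkl⟩ := Walk.mem_support_iff_exists_getVert.mp hwp
    rcases le_total i j with hij | hij <;> rcases le_total j k with hjk | hjk <;>
      rcases le_total i k with hik | hik
    · exact key hu hv hw huv hvw huw hi hj hk hij hjk hkl
    · exact key hu hv hw huv hvw huw hi hj hk hij hjk hkl
    · exact key hu hw hv huw hvw.symm huv hi hk hj hik hjk hjl
    · exact key hw hu hv huw.symm huv hvw.symm hk hi hj hik hij hjl
    · exact key hv hu hw huv.symm huw hvw hj hi hk hij hik hkl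
    · exact key hv hw hu hvw huw.symm huv.symm hj hk hi hjk hik hil
    · exact key hw hv hu hvw.symm huv.symm huw.symm hk hj hi hjk hij hil
    · exact key hw hv hu hvw.symm huv.symm huw.symm hk hj hi hjk hij hil

end Pool.Agent.Lib.MP_15cbb0_co
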