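import Pool.Agent.Lib.MP_15cbb0_co.Lower

/-!
# Exponential bounds for `gp(Q_n)` and `mob(Q_n)`
-/

set_option autoImplicit false

namespace Pool.Agent.Lib.MP_15cbb0_co

open Finset

/-! ### Upper bound -/

theorem gp_le (n : ℕ) : gp (Q n) ≤ 2 ^ (n / 2) + 2 ^ ((n + 1) / 2) := by
  obtain ⟨S, hS, hc⟩ := exists_gp (Q n)
  rw [isGP_iff] at hS
  rw [← hc]
  classical
  let L : (Fin n → Bool) → Fin (n / 2) → Bool := fun x i => x ⟨i.1, by omega⟩
  let R : (Fin n → Bool) → Fin ((n + 1) / 2) → Bool := fun x i => x ⟨n / 2 + i.1, by omega⟩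
  have hLR : ∀ x y, L x = L y → R x = R y → x = y := by
    intro x y h1 h2
    funext i
    by_cases hi : i.1 < n / 2
    · exact congrFun h1 ⟨i.1, hi⟩
    · have := congrFun h2 ⟨i.1 - n / 2, by omega⟩
      simp only [R] at this
      have e : (⟨n / 2 + (i.1 - n / 2), by omega⟩ : Fin n) = i := Fin.ext (by simp; omega)
      rwa [e] at this
  have hbtw : ∀ x y z, L y = L x → R y = R z → Btw x y z := by
    intro x y z h1 h2 i
    by_cases hi : i.1 < n / 2
    · left; exact congrFun h1 ⟨i.1, hi⟩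
    · right
      have := congrFun h2 ⟨i.1 - n / 2, by omega⟩
      simp only [R] at this
      have e : (⟨n / 2 + (i.1 - n / 2), by omega⟩ : Fin n) = i := Fin.ext (by simp; omega)
      rwa [e] at this
  have cover : S ⊆ (S.filter fun s => ∀ t ∈ S, L t = L s → t = s) ∪
      (S.filter fun s => ∀ t ∈ S, R t = R s → t = s) := by
    intro s hs
    rw [mem_union, mem_filter, mem_filter]
    by_contra hcon
    push Not at hcon
    obtain ⟨h1, h2⟩ := hcon
    obtain ⟨t, ht, hLt, hts⟩ := h1 hs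
    obtain ⟨r, hr, hRr, hrs⟩ := h2 hs
    refine hS t ht s hs r hr hts hrs.symm ?_ (hbtw t s r hLt.symm hRr.symm)
    rintro rfl
    exact hts (hLR _ _ hLt hRr)
  have c1 : (S.filter fun s => ∀ t ∈ S, L t = L s → t = s).card ≤ 2 ^ (n / 2) := by
    calc _ ≤ (univ : Finset (Fin (n / 2) → Bool)).card := by
          apply Finset.card_le_card_of_injOn L (fun _ _ => mem_univ _)
          intro x hx y hy hxy
          simp only [coe_filter, Set.mem_ofPred_eq] at hx hy
          exact hy.2 x hx.1 hxy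
      _ = _ := by simp
  have c2 : (S.filter fun s => ∀ t ∈ S, R t = R s → t = s).card ≤ 2 ^ ((n + 1) / 2) := by
    calc _ ≤ (univ : Finset (Fin ((n + 1) / 2) → Bool)).card := by
          apply Finset.card_le_card_of_injOn R (fun _ _ => mem_univ _)
          intro x hx y hy hxy
          simp only [coe_filter, Set.mem_ofPred_eq] at hx hy
          exact hy.2 x hx.1 hxy
      _ = _ := by simp
  exact (card_le_card cover).trans ((card_union_le _ _).trans (add_le_add c1 c2))

/-! ### Lower bound -/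

variable {M : ℕ}

/-- flip the value at `b` -/
def flip (b : Fin M) (ε : Fin M → Bool) : Fin M → Bool := Function.update ε b (!ε b)

lemma flip_flip (b : Fin M) (ε : Fin M → Bool) : flip b (flip b ε) = ε := by
  simp [flip]

/-- `flip` as a permutation -/
def flipE (b : Fin M) : Equiv.Perm (Fin M → Bool) :=
  ⟨flip b, flip b, flip_flip b, flip_flip b⟩

/-- the triple `(a, b, c)` is separated by `ε` -/
def Sep (ε : Fin M → Bool) (t : Fin M × Fin M × Fin M) : Prop :=
  ε t.1 = ε t.2.2 ∧ ε t.2.1 ≠ ε t.1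

instance (ε : Fin M → Bool) (t : Fin M × Fin M × Fin M) : Decidable (Sep ε t) := by
  unfold Sep; infer_instance

lemma count_sep (t : Fin M × Fin M × Fin M) (h1 : t.1 ≠ t.2.1) (h2 : t.2.1 ≠ t.2.2)
    (h3 : t.1 ≠ t.2.2) :
    4 * ∑ ε : Fin M → Bool, (if Sep ε t then 1 else 0) = 2 ^ M := by
  obtain ⟨a, b, c⟩ := t
  simp only at h1 h2 h3
  have e0 := Equiv.sum_comp (flipE b) (fun ε => if Sep ε (a, b, c) then 1 else 0)
  have e1 := Equiv.sum_comp (flipE c) (fun ε => if Sep ε (a, b, c) then 1 else 0)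
  have e2 := Equiv.sum_comp (flipE b * flipE c) (fun ε => if Sep ε (a, b, c) then 1 else 0)
  have hs : ∑ ε : Fin M → Bool, ((if Sep ε (a, b, c) then 1 else 0) +
      (if Sep (flipE b ε) (a, b, c) then 1 else 0) + (if Sep (flipE c ε) (a, b, c) then 1 else 0) +
      (if Sep ((flipE b * flipE c) ε) (a, b, c) then 1 else 0)) = 2 ^ M := by
    have : ∀ ε : Fin M → Bool, ((if Sep ε (a, b, c) then 1 else 0) +
      (if Sep (flipE b ε) (a, b, c) then 1 else 0) + (if Sep (flipE c ε) (a, b, c) then 1 else 0) +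
      (if Sep ((flipE b * flipE c) ε) (a, b, c) then 1 else 0)) = 1 := by
      intro ε
      simp only [Sep, flipE, flip, Equiv.coe_fn_mk, Equiv.Perm.coe_mul, Function.comp_apply]
      simp only [Function.update_of_ne h1, Function.update_of_ne h3, Function.update_of_ne h2,
        Function.update_of_ne h2.symm, Function.update_self]
      rcases Bool.eq_false_or_eq_true (ε a) with ha | ha <;>
        rcases Bool.eq_false_or_eq_true (ε b) with hb | hb <;>
        rcases Bool.eq_false_or_eq_true (ε c) with hc | hc <;> simp [ha, hb, hc]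
    rw [Finset.sum_congr rfl fun ε _ => this ε]
    simp
  rw [sum_add_distrib, sum_add_distrib, sum_add_distrib, e0, e1, e2] at hs
  omega

lemma exists_good (B : Finset (Fin M × Fin M × Fin M))
    (hB : ∀ t ∈ B, t.1 ≠ t.2.1 ∧ t.2.1 ≠ t.2.2 ∧ t.1 ≠ t.2.2) :
    ∃ ε : Fin M → Bool, 4 * (B.filter fun t => ¬ Sep ε t).card ≤ 3 * B.card := by
  by_contra hcon
  push Not at hcon
  have h1 : ∀ ε : Fin M → Bool, 4 * (B.filter fun t => Sep ε t).card < B.card := by
    intro ε
    have h2 := hcon ε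
    have h3 := Finset.card_filter_add_card_filter_not (s := B) (fun t => Sep ε t)
    omega
  have h4 : ∑ ε : Fin M → Bool, 4 * (B.filter fun t => Sep ε t).card <
      ∑ ε : Fin M → Bool, B.card :=
    Finset.sum_lt_sum_of_nonempty univ_nonempty fun ε _ => h1 ε
  have h5 : ∑ ε : Fin M → Bool, 4 * (B.filter fun t => Sep ε t).card = B.card * 2 ^ M := by
    rw [← Finset.mul_sum]
    simp only [Finset.card_filter]
    rw [Finset.sum_comm, Finset.mul_sum]
    rw [Finset.sum_congr rfl fun t ht => count_sep t (hB t ht).1 (hB t ht).2.1 (hB t ht).2.2]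
    simp
  rw [h5] at h4
  simp [mul_comm] at h4

instance {n : ℕ} (x y z : Fin n → Bool) : Decidable (Btw x y z) := by
  unfold Btw; infer_instance

lemma exists_config (B : Finset (Fin M × Fin M × Fin M))
    (hB : ∀ t ∈ B, t.1 ≠ t.2.1 ∧ t.2.1 ≠ t.2.2 ∧ t.1 ≠ t.2.2) (n : ℕ) :
    ∃ F : Fin M → Fin n → Bool,
      4 ^ n * (B.filter fun t => Btw (F t.1) (F t.2.1) (F t.2.2)).card ≤ 3 ^ n * B.card := by
  induction n with
  | zero =>
    refine ⟨fun _ _ => false, ?_⟩
    rw [pow_zero, pow_zero, one_mul, one_mul]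
    exact card_le_card (filter_subset _ _)
  | succ n ih =>
    obtain ⟨F, hF⟩ := ih
    set B' := B.filter fun t => Btw (F t.1) (F t.2.1) (F t.2.2) with hB'
    obtain ⟨ε, hε⟩ := exists_good B' (fun t ht => hB t (mem_of_mem_filter t ht))
    refine ⟨fun a => Fin.cons (ε a) (F a), ?_⟩
    have hsub : (B.filter fun t => Btw (Fin.cons (ε t.1) (F t.1) : Fin (n + 1) → Bool)
        (Fin.cons (ε t.2.1) (F t.2.1)) (Fin.cons (ε t.2.2) (F t.2.2))) ⊆
        B'.filter fun t => ¬ Sep ε t := by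
      intro t ht
      rw [mem_filter] at ht
      obtain ⟨ht, hb⟩ := ht
      rw [mem_filter, hB', mem_filter]
      refine ⟨⟨ht, fun i => by simpa using hb i.succ⟩, ?_⟩
      have h0 := hb 0
      simp only [Fin.cons_zero] at h0
      rintro ⟨h1, h2⟩
      rcases h0 with h0 | h0
      · exact h2 h0
      · exact h2 (h0.trans h1.symm)
    have hcard := card_le_card hsub
    calc 4 ^ (n + 1) * _ ≤ 4 ^ (n + 1) * (B'.filter fun t => ¬ Sep ε t).card :=
          Nat.mul_le_mul_left _ hcard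
      _ = 4 ^ n * (4 * (B'.filter fun t => ¬ Sep ε t).card) := by ring
      _ ≤ 4 ^ n * (3 * B'.card) := Nat.mul_le_mul_left _ hε
      _ = 3 * (4 ^ n * B'.card) := by ring
      _ ≤ 3 * (3 ^ n * B.card) := Nat.mul_le_mul_left _ hF
      _ = 3 ^ (n + 1) * B.card := by ring

/-- the triples to be separated -/
def trip (M : ℕ) : Finset (Fin M × Fin M × Fin M) :=
  univ.filter fun t => t.1 < t.2.2 ∧ t.1 ≠ t.2.1 ∧ t.2.1 ≠ t.2.2

lemma card_trip (M : ℕ) : 2 * (trip M).card ≤ M ^ 3 := by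
  have hsub : trip M ∪ (trip M).image (fun t => (t.2.2, t.2.1, t.1)) ⊆ univ := subset_univ _
  have hd : Disjoint (trip M) ((trip M).image (fun t => (t.2.2, t.2.1, t.1))) := by
    rw [Finset.disjoint_left]
    intro t ht ht'
    rw [mem_image] at ht'
    obtain ⟨s, hs, rfl⟩ := ht'
    simp only [trip, mem_filter, mem_univ, true_and] at hs ht
    exact absurd hs.1 (not_lt.mpr ht.1.le)
  have hinj : Function.Injective (fun t : Fin M × Fin M × Fin M => (t.2.2, t.2.1, t.1)) := by
    rintro ⟨a, b, c⟩ ⟨a', b', c'⟩ h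
    simp only [Prod.mk.injEq] at h ⊢
    tauto
  have h1 := card_le_card hsub
  rw [card_union_of_disjoint hd, card_image_of_injective _ hinj] at h1
  have h2 : (univ : Finset (Fin M × Fin M × Fin M)).card = M ^ 3 := by
    rw [Finset.card_univ, Fintype.card_prod, Fintype.card_prod, Fintype.card_fin]; ring
  rw [h2] at h1
  omega

theorem le_gp_of (n m : ℕ) (hm : 2 ≤ m) (h : 4 * m ^ 2 * 3 ^ n ≤ 4 ^ n) : m ≤ gp (Q n) := by
  obtain ⟨F, hF⟩ := exists_config (trip (2 * m)) (by
    intro t ht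
    simp only [trip, mem_filter, mem_univ, true_and] at ht
    exact ⟨ht.2.1, ht.2.2, ht.1.ne⟩) n
  set Bad := (trip (2 * m)).filter fun t => Btw (F t.1) (F t.2.1) (F t.2.2) with hBad
  have hbad : Bad.card ≤ m := by
    have h1 := card_trip (2 * m)
    have h2 : 4 ^ n * Bad.card ≤ 4 ^ n * m := by
      calc 4 ^ n * Bad.card ≤ 3 ^ n * (trip (2 * m)).card := hF
        _ ≤ 3 ^ n * (4 * m ^ 3) := Nat.mul_le_mul_left _ (by
            have : (2 * m) ^ 3 = 2 * (4 * m ^ 3) := by ring
            omega)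
        _ = (4 * m ^ 2 * 3 ^ n) * m := by ring
        _ ≤ 4 ^ n * m := Nat.mul_le_mul_right _ h
    exact Nat.le_of_mul_le_mul_left h2 (by positivity)
  set B := Bad.image (fun t => t.2.1) with hB
  have hBc : B.card ≤ m := card_image_le.trans hbad
  -- membership in `B`
  have memB : ∀ a b c : Fin (2 * m), a ≠ b → b ≠ c → a ≠ c → Btw (F a) (F b) (F c) → b ∈ B := by
    intro a b c hab hbc hac hbt
    rw [hB, mem_image]
    rcases lt_or_gt_of_ne hac with hlt | hlt
    · refine ⟨(a, b, c), ?_, rfl⟩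
      rw [hBad, mem_filter]
      refine ⟨?_, hbt⟩
      simp only [trip, mem_filter, mem_univ, true_and]
      exact ⟨hlt, hab, hbc⟩
    · refine ⟨(c, b, a), ?_, rfl⟩
      rw [hBad, mem_filter]
      refine ⟨?_, fun i => (hbt i).symm⟩
      simp only [trip, mem_filter, mem_univ, true_and]
      exact ⟨hlt, hbc.symm, hab.symm⟩
  have hinj : Set.InjOn F (univ \ B : Finset (Fin (2 * m))) := by
    intro a _ b hb hab
    by_contra hne
    have hb' : b ∉ B := by simpa using hb
    have hcard : ({a, b} : Finset (Fin (2 * m))).card < (univ : Finset (Fin (2 * m))).card := by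
      rw [Finset.card_univ, Fintype.card_fin]
      have := card_le_two (a := a) (b := b)
      omega
    obtain ⟨c, -, hc⟩ := exists_mem_notMem_of_card_lt_card hcard
    simp only [mem_insert, mem_singleton, not_or] at hc
    exact hb' (memB a b c hne (Ne.symm hc.2) (Ne.symm hc.1) (fun i => Or.inl (by rw [hab])))
  have hgp : IsGP (Q n) ((univ \ B).image F) := by
    rw [isGP_iff]
    intro u hu v hv w hw huv hvw huw hbt
    rw [mem_image] at hu hv hw
    obtain ⟨a, ha, rfl⟩ := hu
    obtain ⟨b, hb, rfl⟩ := hv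
    obtain ⟨c, hc, rfl⟩ := hw
    have hb' : b ∉ B := by simpa using hb
    exact hb' (memB a b c (fun h => huv (by rw [h])) (fun h => hvw (by rw [h]))
      (fun h => huw (by rw [h])) hbt)
  have h1 := le_gp _ hgp
  rw [card_image_of_injOn hinj] at h1
  have h2 := card_sdiff_add_card_inter (univ : Finset (Fin (2 * m))) B
  rw [Finset.card_univ, Fintype.card_fin, univ_inter] at h2
  omega

lemma two_le_gp (n : ℕ) : 2 ≤ gp (Q (n + 1)) := by
  have hne : (fun _ => false : Fin (n + 1) → Bool) ≠ fun _ => true := by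
    intro h; simpa using congrFun h 0
  have : IsGP (Q (n + 1)) {fun _ => false, fun _ => true} := by
    intro u hu v hv w hw huv hvw huw
    simp only [Finset.mem_insert, Finset.mem_singleton] at hu hv hw
    rcases hu with rfl | rfl <;> rcases hv with rfl | rfl <;> rcases hw with rfl | rfl <;>
      first | exact absurd rfl huv | exact absurd rfl hvw | exact absurd rfl huw
  have h := le_gp _ this
  rwa [card_pair hne] at h

theorem gp_lower (k : ℕ) : (1 / 4 : ℝ) * (2 / √3) ^ (k + 1) ≤ gp (Q k) := by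
  have hs : (1.732 : ℝ) ≤ √3 := by
    rw [show (1.732 : ℝ) = √(1.732 ^ 2) by rw [Real.sqrt_sq (by norm_num)]]
    exact Real.sqrt_le_sqrt (by norm_num)
  have hs0 : (0 : ℝ) < √3 := by positivity
  have hq : 2 / √3 ≤ 1.155 := by
    rw [div_le_iff₀ hs0]; nlinarith
  set x : ℝ := (2 / √3) ^ k with hx
  have hx0 : 0 ≤ x := by positivity
  have hx2 : x ^ 2 = (4 / 3) ^ k := by
    rw [hx, ← pow_mul, mul_comm, pow_mul]
    congr 1
    rw [div_pow, Real.sq_sqrt (by norm_num)]; norm_num
  rw [pow_succ, ← hx]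
  have hle : (1 / 4 : ℝ) * (x * (2 / √3)) ≤ x / 3 := by
    nlinarith
  have hle2 : (1 / 4 : ℝ) * (x * (2 / √3)) ≤ 0.28875 * x := by
    nlinarith
  rcases lt_or_ge x 4 with h4 | h4
  · rcases Nat.eq_zero_or_pos k with hk | hk
    · subst hk
      have : (1 : ℝ) ≤ gp (Q 0) := by exact_mod_cast one_le_gp 0
      simp only [pow_zero] at hx
      linarith
    · obtain ⟨j, rfl⟩ := Nat.exists_eq_add_of_le' hk
      have : (2 : ℝ) ≤ gp (Q (j + 1)) := by exact_mod_cast two_le_gp j
      linarith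
  · set m := ⌊x / 2⌋₊ with hm
    have hm1 : (m : ℝ) ≤ x / 2 := Nat.floor_le (by positivity)
    have hm2 : x / 2 < m + 1 := Nat.lt_floor_add_one _
    have hm3 : 2 ≤ m := by
      rw [hm]; apply Nat.le_floor; push_cast; linarith
    have hm3' : (2 : ℝ) ≤ m := by exact_mod_cast hm3
    have hcond : 4 * m ^ 2 * 3 ^ k ≤ 4 ^ k := by
      have h1 : (4 : ℝ) * m ^ 2 ≤ x ^ 2 := by nlinarith
      have h2 : (4 : ℝ) * m ^ 2 * 3 ^ k ≤ 4 ^ k := by
        rw [hx2] at h1
        calc (4 : ℝ) * m ^ 2 * 3 ^ k ≤ (4 / 3) ^ k * 3 ^ k := by gcongr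
          _ = 4 ^ k := by rw [← mul_pow]; norm_num
      exact_mod_cast h2
    have h5 : (m : ℝ) ≤ gp (Q k) := by exact_mod_cast le_gp_of k m hm3 hcond
    linarith

/-- `(1/4) (2/√3)^n ≤ mob(Q_n) ≤ 2^⌊n/2⌋ + 2^⌈n/2⌉`. -/
theorem growth (n : ℕ) (hn : 1 ≤ n) :
    (1 / 4 : ℝ) * (2 / √3) ^ n ≤ mob (Q n) ∧
      mob (Q n) ≤ 2 ^ (n / 2) + 2 ^ ((n + 1) / 2) := by
  obtain ⟨k, rfl⟩ := Nat.exists_eq_add_of_le' hn
  refine ⟨(gp_lower k).trans ?_, (mob_le_gp _).trans (gp_le _)⟩
  exact_mod_cast gp_le_mob k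

end Pool.Agent.Lib.MP_15cbb0_co
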