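import Pool.Agent.Lib.MP_15cbb0_co.Move

/-!
# `gp(Q_n) ≤ mob(Q_{n+1})`
-/

set_option autoImplicit false

namespace Pool.Agent.Lib.MP_15cbb0_co

open Relation

variable {n : ℕ}

/-- The translated copy of the configuration `S` of `Q_n` in the layer `b` of `Q_{n+1}`. -/
def TT (S : Finset (Fin n → Bool)) (x : Fin n → Bool) (b : Bool) (s : S) : Fin (n + 1) → Bool :=
  Fin.cons b (fun j => xor (s.1 j) (x j))

/-- The configuration in which the coordinate `0` stores a copy of the coordinate `i + 1` of the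
original configuration, and the coordinate `i + 1` is shifted by `x`. -/
def CC (S : Finset (Fin n → Bool)) (i : Fin n) (x : Fin n → Bool) (s : S) : Fin (n + 1) → Bool :=
  Fin.cons (s.1 i) (fun j => xor (s.1 j) (x j))

variable {S : Finset (Fin n → Bool)}

lemma goodOff_TT (hS : IsGP (Q n) S) (x : Fin n → Bool) (b : Bool) : GoodOff 0 (TT S x b) := by
  rw [isGP_iff] at hS
  refine ⟨fun s t hst => ?_, fun s t r hst htr hsr => ?_⟩
  · have hne : s.1 ≠ t.1 := fun h => hst (Subtype.ext h)
    obtain ⟨j, hj⟩ := Function.ne_iff.mp hne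
    exact ⟨j.succ, Fin.succ_ne_zero j, by simpa [TT] using hj⟩
  · have := hS s.1 s.2 t.1 t.2 r.1 r.2 (fun h => hst (Subtype.ext h))
      (fun h => htr (Subtype.ext h)) (fun h => hsr (Subtype.ext h))
    simp only [Btw, not_forall, not_or] at this
    obtain ⟨j, h1, h2⟩ := this
    exact ⟨j.succ, Fin.succ_ne_zero j, by simpa [TT] using h1, by simpa [TT] using h2⟩

lemma goodOff_CC_zero (hS : IsGP (Q n) S) (i : Fin n) (x : Fin n → Bool) :
    GoodOff 0 (CC S i x) := by
  refine (goodOff_TT hS x false).congr ?_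
  intro a j hj
  obtain ⟨k, rfl⟩ := Fin.exists_succ_eq.mpr hj
  simp [TT, CC]

lemma goodOff_CC (hS : IsGP (Q n) S) (i : Fin n) (x : Fin n → Bool) :
    GoodOff i.succ (CC S i x) := by
  rw [isGP_iff] at hS
  refine ⟨fun s t hst => ?_, fun s t r hst htr hsr => ?_⟩
  · have hne : s.1 ≠ t.1 := fun h => hst (Subtype.ext h)
    obtain ⟨j, hj⟩ := Function.ne_iff.mp hne
    by_cases hji : j = i
    · subst hji
      exact ⟨0, (Fin.succ_ne_zero j).symm, by simpa [CC] using hj⟩
    · exact ⟨j.succ, fun h => hji (Fin.succ_injective _ h), by simpa [CC] using hj⟩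
  · have := hS s.1 s.2 t.1 t.2 r.1 r.2 (fun h => hst (Subtype.ext h))
      (fun h => htr (Subtype.ext h)) (fun h => hsr (Subtype.ext h))
    simp only [Btw, not_forall, not_or] at this
    obtain ⟨j, h1, h2⟩ := this
    by_cases hji : j = i
    · subst hji
      exact ⟨0, (Fin.succ_ne_zero j).symm, by simpa [CC] using h1, by simpa [CC] using h2⟩
    · exact ⟨j.succ, fun h => hji (Fin.succ_injective _ h), by simpa [CC] using h1,
        by simpa [CC] using h2⟩

lemma reach_bit (hS : IsGP (Q n) S) (x : Fin n → Bool) (b b' : Bool) :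
    ReflTransGen (LegalMove (Q (n + 1))) (img (TT S x b)) (img (TT S x b')) := by
  refine reach_free (goodOff_TT hS x b) ?_
  intro a j hj
  obtain ⟨k, rfl⟩ := Fin.exists_succ_eq.mpr hj
  simp [TT]

lemma reach_shift (hS : IsGP (Q n) S) (x y : Fin n → Bool) (b : Bool) (i : Fin n)
    (hxy : ∀ j, j ≠ i → x j = y j) :
    ReflTransGen (LegalMove (Q (n + 1))) (img (TT S x b)) (img (TT S y b)) := by
  have h1 : ReflTransGen (LegalMove (Q (n + 1))) (img (TT S x b)) (img (CC S i x)) := by
    refine reach_free (goodOff_TT hS x b) ?_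
    intro a j hj
    obtain ⟨k, rfl⟩ := Fin.exists_succ_eq.mpr hj
    simp [TT, CC]
  have h2 : ReflTransGen (LegalMove (Q (n + 1))) (img (CC S i x)) (img (CC S i y)) := by
    refine reach_free (goodOff_CC hS i x) ?_
    intro a j hj
    refine Fin.cases ?_ (fun k => ?_) j hj
    · intro _; simp [CC]
    · intro hk
      have : x k = y k := hxy k (fun h => hk (by rw [h]))
      simp [CC, this]
  have h3 : ReflTransGen (LegalMove (Q (n + 1))) (img (CC S i y)) (img (TT S y b)) := by
    refine reach_free (goodOff_CC_zero hS i y) ?_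
    intro a j hj
    obtain ⟨k, rfl⟩ := Fin.exists_succ_eq.mpr hj
    simp [TT, CC]
  exact (h1.trans h2).trans h3

lemma reach_all (hS : IsGP (Q n) S) (y : Fin n → Bool) (b b' : Bool) :
    ReflTransGen (LegalMove (Q (n + 1))) (img (TT S (fun _ => false) b)) (img (TT S y b')) := by
  refine (reach_bit hS _ b b').trans ?_
  have key : ∀ A : Finset (Fin n), ReflTransGen (LegalMove (Q (n + 1)))
      (img (TT S (fun _ => false) b')) (img (TT S (fun j => if j ∈ A then y j else false) b')) := by
    intro A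
    induction A using Finset.induction_on with
    | empty => simpa using ReflTransGen.refl
    | insert i A _ ih =>
      refine ih.trans (reach_shift hS _ _ b' i ?_)
      intro j hj
      simp [Finset.mem_insert, hj]
  simpa using key Finset.univ

/-- The copy of a nonempty general position set of `Q_n` in `Q_{n+1}` is mobile. -/
theorem mobile_of_gp (hS : IsGP (Q n) S) (hne : S.Nonempty) :
    IsMobile (Q (n + 1)) (img (TT S (fun _ => false) false)) := by
  have hgp := (goodOff_TT hS (fun _ => false) false).isGP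
  refine ⟨hgp, ?_⟩
  have hvis : ∀ v : Fin (n + 1) → Bool, ∃ T,
      ReflTransGen (LegalMove (Q (n + 1))) (img (TT S (fun _ => false) false)) T ∧ v ∈ T := by
    intro v
    obtain ⟨s, hs⟩ := hne
    refine ⟨_, reach_all hS (fun j => xor (s j) (v j.succ)) false (v 0), ?_⟩
    rw [mem_img]
    refine ⟨⟨s, hs⟩, ?_⟩
    funext j
    refine Fin.cases ?_ (fun k => ?_) j
    · simp [TT]
    · simp [TT]
  obtain ⟨l, hl, hv⟩ := visit (LegalMove (Q (n + 1))) (fun (v : Fin (n + 1) → Bool) T => v ∈ T)
    (img (TT S (fun _ => false) false))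
    (by
      intro T hT v
      obtain ⟨T', hT', hm⟩ := hvis v
      exact ⟨T', (reach_symm hgp hT).trans hT', hm⟩)
    Finset.univ.toList _ ReflTransGen.refl
  exact ⟨l, hl, fun x => hv x (by simp)⟩

lemma card_TT (hS : IsGP (Q n) S) (x : Fin n → Bool) (b : Bool) :
    (img (TT S x b)).card = S.card := by
  rw [img, Finset.card_image_of_injective _ (goodOff_TT hS x b).injective, Finset.card_univ,
    Fintype.card_coe]

/-! ### The numbers -/

lemma gp_bdd {V : Type} [Fintype V] (G : SimpleGraph V) :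
    BddAbove {k : ℕ | ∃ S : Finset V, IsGP G S ∧ S.card = k} := by
  refine ⟨Fintype.card V, ?_⟩
  rintro k ⟨S, -, rfl⟩
  exact Finset.card_le_univ S

lemma mob_bdd {V : Type} [Fintype V] [DecidableEq V] (G : SimpleGraph V) :
    BddAbove {k : ℕ | ∃ S : Finset V, IsMobile G S ∧ S.card = k} := by
  refine ⟨Fintype.card V, ?_⟩
  rintro k ⟨S, -, rfl⟩
  exact Finset.card_le_univ S

lemma exists_gp {V : Type} [Fintype V] (G : SimpleGraph V) :
    ∃ S : Finset V, IsGP G S ∧ S.card = gp G :=
  Nat.sSup_mem (s := {k : ℕ | ∃ S : Finset V, IsGP G S ∧ S.card = k})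
    ⟨0, ∅, by intro u hu; simp at hu, rfl⟩ (gp_bdd G)

lemma le_gp {V : Type} [Fintype V] (G : SimpleGraph V) {S : Finset V} (hS : IsGP G S) :
    S.card ≤ gp G :=
  le_csSup (gp_bdd G) ⟨S, hS, rfl⟩

lemma le_mob {V : Type} [Fintype V] [DecidableEq V] (G : SimpleGraph V) {S : Finset V}
    (hS : IsMobile G S) : S.card ≤ mob G :=
  le_csSup (mob_bdd G) ⟨S, hS, rfl⟩

lemma one_le_gp (n : ℕ) : 1 ≤ gp (Q n) := by
  have : IsGP (Q n) {fun _ => false} := by
    intro u hu v hv w hw huv
    simp only [Finset.mem_singleton] at hu hv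
    exact absurd (hu.trans hv.symm) huv
  simpa using le_gp _ this

theorem gp_le_mob (n : ℕ) : gp (Q n) ≤ mob (Q (n + 1)) := by
  obtain ⟨S, hS, hc⟩ := exists_gp (Q n)
  have hne : S.Nonempty := by
    rw [← Finset.card_pos, hc]; exact one_le_gp n
  rw [← hc, ← card_TT hS (fun _ => false) false]
  exact le_mob _ (mobile_of_gp hS hne)

theorem mob_le_gp {V : Type} [Fintype V] [DecidableEq V] (G : SimpleGraph V) : mob G ≤ gp G := by
  rcases Set.eq_empty_or_nonempty {k : ℕ | ∃ S : Finset V, IsMobile G S ∧ S.card = k} with h | h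
  · rw [mob, h]; simp
  · obtain ⟨S, hS, hc⟩ := Nat.sSup_mem h (mob_bdd G)
    rw [mob, ← hc]
    exact le_gp G hS.1

/-- Restricting to a layer: `gp(Q_{n+1}) ≤ 2 gp(Q_n)`. -/
theorem gp_succ_le (n : ℕ) : gp (Q (n + 1)) ≤ 2 * gp (Q n) := by
  obtain ⟨S, hS, hc⟩ := exists_gp (Q (n + 1))
  rw [← hc]
  have key : ∀ b : Bool, (S.filter fun x => x 0 = b).card ≤ gp (Q n) := by
    intro b
    have hinj : Set.InjOn (Fin.tail : (Fin (n + 1) → Bool) → Fin n → Bool)
        (S.filter fun x => x 0 = b) := by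
      intro x hx y hy hxy
      simp only [Finset.coe_filter, Set.mem_ofPred_eq] at hx hy
      rw [← Fin.cons_self_tail x, ← Fin.cons_self_tail y, hxy, hx.2, hy.2]
    rw [← Finset.card_image_of_injOn hinj]
    apply le_gp
    rw [isGP_iff] at hS ⊢
    intro u hu v hv w hw huv hvw huw hb
    simp only [Finset.mem_image, Finset.mem_filter] at hu hv hw
    obtain ⟨u', ⟨hu1, hu2⟩, rfl⟩ := hu
    obtain ⟨v', ⟨hv1, hv2⟩, rfl⟩ := hv
    obtain ⟨w', ⟨hw1, hw2⟩, rfl⟩ := hw
    refine hS u' hu1 v' hv1 w' hw1 (fun h => huv (by rw [h])) (fun h => hvw (by rw [h]))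
      (fun h => huw (by rw [h])) ?_
    intro j
    refine Fin.cases ?_ (fun k => ?_) j
    · left; rw [hu2, hv2]
    · exact hb k
  have hsplit : S.card = (S.filter fun x => x 0 = true).card +
      (S.filter fun x => x 0 = false).card := by
    rw [← Finset.card_filter_add_card_filter_not (s := S) (fun x => x 0 = true)]
    simp
  have h1 := key true
  have h2 := key false
  omega

end Pool.Agent.Lib.MP_15cbb0_co
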