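import Pool.Agent.Lib.MP_15cbb0_co.Geo

/-!
# Moving all robots through the hypercube

A general position set of `Q_n` is placed in `Q_{n+1}`; the free coordinate is used as a buffer in
which every robot stores a copy of one of its other coordinates, which is thereby freed and can be
flipped for all the robots.
-/

set_option autoImplicit false

namespace Pool.Agent.Lib.MP_15cbb0_co

open Relation

/-! ### Chains visiting many states -/

lemma extend_chain {α : Type} {r : α → α → Prop} {T T' : α} (h : ReflTransGen r T T')
    (l₂ : List α) (hl : (T' :: l₂).IsChain r) :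
    ∃ l, (T :: l).IsChain r ∧ ∀ U ∈ T' :: l₂, U ∈ T :: l := by
  induction h using ReflTransGen.head_induction_on with
  | refl => exact ⟨l₂, hl, fun U hU => hU⟩
  | head h1 _ ih =>
    rename_i a c _
    obtain ⟨l, hc, hU⟩ := ih
    refine ⟨c :: l, List.isChain_cons_cons.mpr ⟨h1, hc⟩, fun U h => ?_⟩
    exact List.mem_cons_of_mem _ (hU U h)

lemma visit {α β : Type} (r : α → α → Prop) (P : β → α → Prop) (S : α)
    (h : ∀ T, ReflTransGen r S T → ∀ v, ∃ T', ReflTransGen r T T' ∧ P v T') (L : List β) :
    ∀ T, ReflTransGen r S T → ∃ l, (T :: l).IsChain r ∧ ∀ v ∈ L, ∃ U ∈ T :: l, P v U := by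
  induction L with
  | nil => intro T _; exact ⟨[], List.isChain_singleton _, by simp⟩
  | cons v L ih =>
    intro T hT
    obtain ⟨T', hTT', hP⟩ := h T hT v
    obtain ⟨l₂, hc, hv⟩ := ih T' (hT.trans hTT')
    obtain ⟨l, hl, hU⟩ := extend_chain hTT' l₂ hc
    refine ⟨l, hl, ?_⟩
    intro w hw
    rcases List.mem_cons.mp hw with rfl | hw
    · exact ⟨T', hU _ (by simp), hP⟩
    · obtain ⟨U, hU1, hU2⟩ := hv w hw
      exact ⟨U, hU U hU1, hU2⟩

/-! ### Legal moves are reversible -/

lemma legal_symm {V : Type} [DecidableEq V] {G : SimpleGraph V} {S T : Finset V}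
    (hS : IsGP G S) (h : LegalMove G S T) : LegalMove G T S := by
  obtain ⟨u, hu, v, hv, hadj, rfl, hT⟩ := h
  refine ⟨v, Finset.mem_insert_self _ _, u, ?_, hadj.symm, ?_, hS⟩
  · simp only [Finset.mem_insert, Finset.mem_erase, ne_eq, not_true_eq_false, false_and, or_false]
    exact hadj.ne
  · rw [Finset.erase_insert (fun h => hv (Finset.mem_of_mem_erase h)), Finset.insert_erase hu]

lemma reach_gp {V : Type} [DecidableEq V] {G : SimpleGraph V} {S T : Finset V}
    (hS : IsGP G S) (h : ReflTransGen (LegalMove G) S T) : IsGP G T := by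
  induction h with
  | refl => exact hS
  | tail _ h2 _ =>
    obtain ⟨u, hu, v, hv, hadj, rfl, hT⟩ := h2
    exact hT

lemma reach_symm {V : Type} [DecidableEq V] {G : SimpleGraph V} {S T : Finset V}
    (hS : IsGP G S) (h : ReflTransGen (LegalMove G) S T) : ReflTransGen (LegalMove G) T S := by
  induction h with
  | refl => exact ReflTransGen.refl
  | tail h1 h2 ih => exact ReflTransGen.head (legal_symm (reach_gp hS h1) h2) ih

/-! ### Labelled configurations -/

variable {n : ℕ} {ι : Type}

/-- The labelled configuration `F` is injective and in general position even after deleting the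
coordinate `i`. -/
def GoodOff (i : Fin n) (F : ι → Fin n → Bool) : Prop :=
  (∀ a b, a ≠ b → ∃ j, j ≠ i ∧ F a j ≠ F b j) ∧
  ∀ a b c, a ≠ b → b ≠ c → a ≠ c → ∃ j, j ≠ i ∧ F b j ≠ F a j ∧ F b j ≠ F c j

lemma GoodOff.congr {i : Fin n} {F G : ι → Fin n → Bool} (hF : GoodOff i F)
    (h : ∀ a j, j ≠ i → F a j = G a j) : GoodOff i G := by
  refine ⟨fun a b hab => ?_, fun a b c hab hbc hac => ?_⟩
  · obtain ⟨j, hj, h1⟩ := hF.1 a b hab
    exact ⟨j, hj, by rw [← h a j hj, ← h b j hj]; exact h1⟩
  · obtain ⟨j, hj, h1, h2⟩ := hF.2 a b c hab hbc hac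
    exact ⟨j, hj, by rw [← h a j hj, ← h b j hj]; exact h1, by
      rw [← h c j hj, ← h b j hj]; exact h2⟩

/-- The set of occupied vertices. -/
def img [Fintype ι] (F : ι → Fin n → Bool) : Finset (Fin n → Bool) := Finset.univ.image F

lemma mem_img [Fintype ι] {F : ι → Fin n → Bool} {x : Fin n → Bool} : x ∈ img F ↔ ∃ a, F a = x := by
  simp [img]

lemma GoodOff.isGP [Fintype ι] {i : Fin n} {F : ι → Fin n → Bool} (hF : GoodOff i F) :
    IsGP (Q n) (img F) := by
  rw [isGP_iff]
  intro u hu v hv w hw huv hvw huw hb
  obtain ⟨a, rfl⟩ := mem_img.mp hu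
  obtain ⟨b, rfl⟩ := mem_img.mp hv
  obtain ⟨c, rfl⟩ := mem_img.mp hw
  obtain ⟨j, -, h1, h2⟩ := hF.2 a b c (fun h => huv (by rw [h])) (fun h => hvw (by rw [h]))
    (fun h => huw (by rw [h]))
  rcases hb j with h | h
  · exact h1 h
  · exact h2 h

lemma GoodOff.injective {i : Fin n} {F : ι → Fin n → Bool} (hF : GoodOff i F) :
    Function.Injective F := by
  intro a b hab
  by_contra hne
  obtain ⟨j, -, h⟩ := hF.1 a b hne
  exact h (by rw [hab])

/-- If the coordinate `i` is free then it can be changed for all robots. -/
lemma reach_free [Fintype ι] [DecidableEq ι] {i : Fin n} {F G : ι → Fin n → Bool} (hF : GoodOff i F)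
    (h : ∀ a j, j ≠ i → F a j = G a j) :
    ReflTransGen (LegalMove (Q n)) (img F) (img G) := by
  have key : ∀ A : Finset ι, ReflTransGen (LegalMove (Q n)) (img F)
      (img fun a => if a ∈ A then G a else F a) := by
    intro A
    induction A using Finset.induction_on with
    | empty => simpa using ReflTransGen.refl
    | insert a A ha ih =>
      set F₁ : ι → Fin n → Bool := fun b => if b ∈ A then G b else F b with hF₁
      set F₂ : ι → Fin n → Bool := fun b => if b ∈ insert a A then G b else F b with hF₂
      have e₁ : ∀ b j, j ≠ i → F b j = F₁ b j := by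
        intro b j hj
        simp only [hF₁]
        split_ifs
        · exact h b j hj
        · rfl
      have e₂ : ∀ b j, j ≠ i → F b j = F₂ b j := by
        intro b j hj
        simp only [hF₂]
        split_ifs
        · exact h b j hj
        · rfl
      have g₁ := hF.congr e₁
      have g₂ := hF.congr e₂
      have h1a : F₁ a = F a := by simp [hF₁, ha]
      have h2a : F₂ a = G a := by simp [hF₂]
      have hne : ∀ b, b ≠ a → F₂ b = F₁ b := by
        intro b hb
        simp [hF₁, hF₂, Finset.mem_insert, hb]
      by_cases hi : F a i = G a i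
      · have : F₂ = F₁ := by
          funext b
          by_cases hb : b = a
          · subst hb
            rw [h1a, h2a]
            funext j
            by_cases hj : j = i
            · subst hj; exact hi.symm
            · exact (h b j hj).symm
          · exact hne b hb
        rw [this]; exact ih
      · refine ih.tail ?_
        refine ⟨F₁ a, mem_img.mpr ⟨a, rfl⟩, F₂ a, ?_, ?_, ?_, g₂.isGP⟩
        · intro hmem
          obtain ⟨b, hb⟩ := mem_img.mp hmem
          by_cases hba : b = a
          · subst hba
            rw [h1a, h2a] at hb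
            exact hi (by rw [hb])
          · obtain ⟨j, hj, h3⟩ := g₁.1 b a hba
            apply h3
            rw [hb, ← e₁ a j hj, ← e₂ a j hj]
        · refine ⟨i, by rw [h1a, h2a]; exact hi, ?_⟩
          intro j hj
          by_contra hji
          exact hj (by rw [← e₁ a j hji, ← e₂ a j hji])
        · ext x
          rw [mem_img, Finset.mem_insert, Finset.mem_erase, mem_img]
          constructor
          · rintro ⟨b, rfl⟩
            by_cases hb : b = a
            · left; rw [hb]
            · right
              refine ⟨?_, b, (hne b hb).symm⟩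
              rw [hne b hb]
              exact fun h => hb (g₁.injective h)
          · rintro (rfl | ⟨hx, b, rfl⟩)
            · exact ⟨a, rfl⟩
            · have hb : b ≠ a := fun h => hx (by rw [h])
              exact ⟨b, hne b hb⟩
  simpa using key Finset.univ

end Pool.Agent.Lib.MP_15cbb0_co
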